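import Pool.Agent.H50.ODG.Targets

set_option autoImplicit false

open Pool.Agent.H57.CP Pool.Agent.H39.TO Pool.Agent.H39.OD Pool.Agent.H50.ODG

namespace Pool.Agent.H64.ODG

theorem pf_CJR : T_CJR := by
  intro V a c q ha hc haV hcV haa hcc hq hodd
  obtain ⟨j, rfl⟩ := hodd
  have hr : ∀ y, (a * c) y = a (c y) := fun y => rfl
  have hrV : ∀ y ∈ V, (a * c) y ∈ V := fun y hy => (haV _).2 ((hcV _).2 hy)
  have hainv : ∀ y ∈ V, a⁻¹ y = a y := fun y hy => by
    rw [Equiv.Perm.inv_eq_iff_eq]; exact (haa y hy).symm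
  have hcinv : ∀ y ∈ V, c⁻¹ y = c y := fun y hy => by
    rw [Equiv.Perm.inv_eq_iff_eq]; exact (hcc y hy).symm
  have hrinv : ∀ y ∈ V, (a * c)⁻¹ y = c (a y) := fun y hy => by
    rw [mul_inv_rev, Equiv.Perm.mul_apply, hainv y hy, hcinv _ ((haV _).2 hy)]
  have hrinvV : ∀ y ∈ V, (a * c)⁻¹ y ∈ V := fun y hy => by
    rw [hrinv y hy]; exact (hcV _).2 ((haV _).2 hy)
  have hpV : ∀ k : ℕ, ∀ y ∈ V, ((a * c) ^ k)⁻¹ y ∈ V := by
    intro k
    induction k with
    | zero => intro y hy; simpa using hy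
    | succ n ih =>
      intro y hy
      rw [pow_succ', mul_inv_rev, Equiv.Perm.mul_apply]
      exact ih _ (hrinvV y hy)
  have hcom : ∀ k : ℕ, ∀ y ∈ V, c (((a * c) ^ k)⁻¹ y) = ((a * c) ^ k) (c y) := by
    intro k
    induction k with
    | zero => intro y hy; simp
    | succ n ih =>
      intro y hy
      rw [pow_succ', mul_inv_rev, Equiv.Perm.mul_apply, ih _ (hrinvV y hy), hrinv y hy,
        hcc _ ((haV _).2 hy), ← pow_succ', pow_succ, Equiv.Perm.mul_apply, hr, hcc y hy]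
  have hisom : ∀ k : ℕ, IsIso ((a * c) ^ k) := by
    intro k
    induction k with
    | zero => intro x y; simp
    | succ n ih =>
      intro x y
      have e : ∀ z, ((a * c) ^ (n + 1)) z = a (c (((a * c) ^ n) z)) := fun z => by
        rw [pow_succ', Equiv.Perm.mul_apply, hr]
      rw [e, e, ha, hc, ih]
  refine ⟨(a * c) ^ (j + 1), hisom _, ?_, fun y hy => ?_⟩
  · exact Subgroup.pow_mem _ (Subgroup.mul_mem _ (Subgroup.subset_closure (by simp))
      (Subgroup.subset_closure (by simp))) _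
  · rw [hcom _ y hy, ← Equiv.Perm.mul_apply, ← pow_add,
      show j + 1 + (j + 1) = (2 * j + 1) + 1 by ring, pow_succ', Equiv.Perm.mul_apply,
      hq _ ((hcV _).2 hy), hr, hcc y hy]

end Pool.Agent.H64.ODG
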