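import Pool.Agent.H50.ODG.Targets

set_option autoImplicit false

open Pool.Agent.H57.CP Pool.Agent.H39.TO Pool.Agent.H39.OD Pool.Agent.H50.ODG

namespace Pool.Agent.H64.ODG

theorem kmk_add (u v w : V4) : mk (u + v) w = mk u w + mk v w := by
  simp [mk]; ring

theorem kmk_smul (t : ℝ) (u w : V4) : mk (t • u) w = t * mk u w := by
  simp [mk]; ring

theorem kmk_comm (u w : V4) : mk u w = mk w u := by
  simp [mk]; ring

theorem kmk_add' (u v w : V4) : mk w (u + v) = mk w u + mk w v := by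
  simp [mk]; ring

theorem kmk_smul' (t : ℝ) (u w : V4) : mk w (t • u) = t * mk w u := by
  simp [mk]; ring

/-- causal vectors in the same half -/
theorem causal_nonneg (u w : V4) (hu : 0 ≤ mk u u) (hw : 0 ≤ mk w w) (h : 0 < u 3 * w 3) :
    0 ≤ mk u w := by
  simp only [mk] at hu hw ⊢
  have hA : u 0 * u 0 + u 1 * u 1 + u 2 * u 2 ≤ u 3 * u 3 := by linarith
  have hB : w 0 * w 0 + w 1 * w 1 + w 2 * w 2 ≤ w 3 * w 3 := by linarith
  have hcs : (u 0 * w 0 + u 1 * w 1 + u 2 * w 2) ^ 2 ≤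
      (u 0 * u 0 + u 1 * u 1 + u 2 * u 2) * (w 0 * w 0 + w 1 * w 1 + w 2 * w 2) := by
    nlinarith [sq_nonneg (u 0 * w 1 - u 1 * w 0), sq_nonneg (u 0 * w 2 - u 2 * w 0),
      sq_nonneg (u 1 * w 2 - u 2 * w 1)]
  have h0 : 0 ≤ w 0 * w 0 + w 1 * w 1 + w 2 * w 2 := by
    linarith [mul_self_nonneg (w 0), mul_self_nonneg (w 1), mul_self_nonneg (w 2)]
  have h1 : (u 0 * w 0 + u 1 * w 1 + u 2 * w 2) ^ 2 ≤ (u 3 * w 3) ^ 2 := by
    calc _ ≤ _ := hcs
      _ ≤ (u 3 * u 3) * (w 3 * w 3) := mul_le_mul hA hB h0 (mul_self_nonneg _)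
      _ = _ := by ring
  have h2 := abs_le_of_sq_le_sq' h1 h.le
  linarith [h2.2]

/-- the sign of the time coordinate -/
theorem causal_sign (P : H3) (w : V4) (hw : 0 ≤ mk w w) (h : mk P.1 w < 0) : w 3 < 0 := by
  by_contra hcon
  push Not at hcon
  rcases hcon.eq_or_lt with h0 | h0
  · have h1 : w 0 * w 0 + w 1 * w 1 + w 2 * w 2 ≤ 0 := by
      simp only [mk] at hw
      rw [← h0] at hw
      linarith
    have h2 : w 0 = 0 := by nlinarith [mul_self_nonneg (w 0), mul_self_nonneg (w 1), mul_self_nonneg (w 2)]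
    have h3 : w 1 = 0 := by nlinarith [mul_self_nonneg (w 0), mul_self_nonneg (w 1), mul_self_nonneg (w 2)]
    have h4 : w 2 = 0 := by nlinarith [mul_self_nonneg (w 0), mul_self_nonneg (w 1), mul_self_nonneg (w 2)]
    simp only [mk, ← h0, h2, h3, h4] at h
    linarith
  · have := causal_nonneg P.1 w (by rw [P.2.1]; norm_num) hw (mul_pos P.2.2 h0)
    linarith

/-- three orthogonal directions -/
theorem exists_orth (P : H3) (x u v : V4) (κ : ℝ) (hu : mk u u = -1)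
    (hv : mk v v = -1) (hux : mk u x = 0) (hvx : mk v x = 0) (huv : mk u v = κ)
    (hPx : mk P.1 x = 0) (hPu : mk P.1 u = 0) (hκ : κ ^ 2 < 1) :
    ∃ O : H3, mk O.1 x = 0 ∧ mk O.1 u = 0 ∧ mk O.1 v = 0 := by
  have hd : 0 < 1 - κ ^ 2 := by linarith
  obtain ⟨m, hm⟩ : ∃ m, m = mk P.1 v := ⟨_, rfl⟩
  obtain ⟨s, hs⟩ : ∃ s, s = m / (1 - κ ^ 2) := ⟨_, rfl⟩
  have hsm : s * (1 - κ ^ 2) = m := by rw [hs]; field_simp
  have hvu : mk v u = κ := by rw [kmk_comm, huv]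
  obtain ⟨O, hO⟩ : ∃ O : V4, O = P.1 + s • (v + κ • u) := ⟨_, rfl⟩
  have hOx : mk O x = 0 := by
    rw [hO, kmk_add, kmk_smul, kmk_add, kmk_smul, hPx, hvx, hux]; ring
  have hOu : mk O u = 0 := by
    rw [hO, kmk_add, kmk_smul, kmk_add, kmk_smul, hPu, hvu, hu]; ring
  have hOv : mk O v = 0 := by
    rw [hO, kmk_add, kmk_smul, kmk_add, kmk_smul, ← hm, hv, huv]
    linear_combination -hsm
  have hOP : mk P.1 O = 1 + s * m := by
    rw [hO, kmk_add', kmk_smul', kmk_add', kmk_smul', P.2.1, ← hm, hPu]; ring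
  have hOO : mk O O = 1 + s * m := by
    have : mk O O = mk O P.1 + s * (mk O v + κ * mk O u) := by
      conv_lhs => rw [show mk O O = mk O (P.1 + s • (v + κ • u)) by rw [← hO]]
      rw [kmk_add', kmk_smul', kmk_add', kmk_smul']
    rw [this, hOu, hOv, kmk_comm O, hOP]; ring
  have hsm0 : 0 ≤ s * m := by
    rw [← hsm]
    have : s * (s * (1 - κ ^ 2)) = s ^ 2 * (1 - κ ^ 2) := by ring
    rw [this]
    positivity
  have hpos : 0 < 1 + s * m := by linarith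
  have hO3 : 0 < O 3 := by
    have h1 := causal_sign P (-1 • O) (by
      rw [show (-1 : ℤ) • O = (-1 : ℝ) • O by simp, kmk_smul, kmk_smul', hOO]; linarith) (by
      rw [show (-1 : ℤ) • O = (-1 : ℝ) • O by simp, kmk_smul', hOP]; linarith)
    simpa using h1
  obtain ⟨n, hn⟩ : ∃ n, n = Real.sqrt (1 + s * m) := ⟨_, rfl⟩
  have hn0 : 0 < n := by rw [hn]; exact Real.sqrt_pos.2 hpos
  have hn2 : n ^ 2 = 1 + s * m := by rw [hn]; exact Real.sq_sqrt hpos.le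
  refine ⟨⟨n⁻¹ • O, ?_, ?_⟩, ?_, ?_, ?_⟩
  · rw [kmk_smul, kmk_smul', hOO, ← hn2]; field_simp
  · simp only [Pi.smul_apply, smul_eq_mul]; positivity
  · show mk (n⁻¹ • O) x = 0
    rw [kmk_smul, hOx, mul_zero]
  · show mk (n⁻¹ • O) u = 0
    rw [kmk_smul, hOu, mul_zero]
  · show mk (n⁻¹ • O) v = 0
    rw [kmk_smul, hOv, mul_zero]

theorem pf_KAP : T_KAP := by
  intro G x y z P Q R hM a b c ha0 ha1 hb0 hb1 hxy hxz hyz
  obtain ⟨sa, hsa⟩ : ∃ s, s = Real.sin a := ⟨_, rfl⟩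
  obtain ⟨sb, hsb⟩ : ∃ s, s = Real.sin b := ⟨_, rfl⟩
  obtain ⟨ca, hca⟩ : ∃ s, s = Real.cos a := ⟨_, rfl⟩
  obtain ⟨cb, hcb⟩ : ∃ s, s = Real.cos b := ⟨_, rfl⟩
  obtain ⟨cc, hcc⟩ : ∃ s, s = Real.cos c := ⟨_, rfl⟩
  have hsa0 : 0 < sa := hsa ▸ Real.sin_pos_of_pos_of_lt_pi ha0 ha1
  have hsb0 : 0 < sb := hsb ▸ Real.sin_pos_of_pos_of_lt_pi hb0 hb1
  have h1 : sa ^ 2 + ca ^ 2 = 1 := by rw [hsa, hca]; exact Real.sin_sq_add_cos_sq a
  have h2 : sb ^ 2 + cb ^ 2 = 1 := by rw [hsb, hcb]; exact Real.sin_sq_add_cos_sq b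
  rw [← hca] at hxy
  rw [← hcb] at hxz
  rw [← hcc] at hyz
  rw [← hca, ← hcb, ← hcc, ← hsa, ← hsb]
  obtain ⟨u, hu⟩ : ∃ u : V4, u = sa⁻¹ • (y + ca • x) := ⟨_, rfl⟩
  obtain ⟨v, hv⟩ : ∃ v : V4, v = sb⁻¹ • (z + cb • x) := ⟨_, rfl⟩
  have hyx : mk y x = ca := by rw [kmk_comm, hxy]
  have hzx : mk z x = cb := by rw [kmk_comm, hxz]
  have hux : mk u x = 0 := by
    rw [hu, kmk_smul, kmk_add, kmk_smul, hyx, hM.ux]; ring
  have hvx : mk v x = 0 := by
    rw [hv, kmk_smul, kmk_add, kmk_smul, hzx, hM.ux]; ring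
  have huy : mk u y = -sa := by
    rw [hu, kmk_smul, kmk_add, kmk_smul, hM.uy, hxy]
    field_simp
    linear_combination h1
  have huu : mk u u = -1 := by
    have : mk u u = sa⁻¹ * (mk u y + ca * mk u x) := by
      conv_lhs => rw [show mk u u = mk u (sa⁻¹ • (y + ca • x)) by rw [← hu]]
      rw [kmk_smul', kmk_add', kmk_smul']
    rw [this, huy, hux]; field_simp; ring
  have hvz : mk v z = -sb := by
    rw [hv, kmk_smul, kmk_add, kmk_smul, hM.uz, hxz]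
    field_simp
    linear_combination h2
  have hvv : mk v v = -1 := by
    have : mk v v = sb⁻¹ * (mk v z + cb * mk v x) := by
      conv_lhs => rw [show mk v v = mk v (sb⁻¹ • (z + cb • x)) by rw [← hv]]
      rw [kmk_smul', kmk_add', kmk_smul']
    rw [this, hvz, hvx]; field_simp; ring
  obtain ⟨κ, hκ⟩ : ∃ κ, κ = mk u v := ⟨_, rfl⟩
  have hκ1 : κ * (sa * sb) = cc + ca * cb := by
    have h3 : mk u v = sb⁻¹ * (mk u z + cb * mk u x) := by rw [hv, kmk_smul', kmk_add', kmk_smul']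
    have h4 : mk u z = sa⁻¹ * (cc + ca * cb) := by
      rw [hu, kmk_smul, kmk_add, kmk_smul, hyz, hxz]
    rw [hκ, h3, h4, hux]
    field_simp
    ring
  rw [← hκ1]
  have hvu : mk v u = κ := by rw [kmk_comm, hκ]
  have hPu : mk P.1 u = 0 := by rw [hu, kmk_smul', kmk_add', kmk_smul', hM.Py, hM.Px]; ring
  have hPv : mk P.1 v < 0 := by
    rw [hv, kmk_smul', kmk_add', kmk_smul', hM.Px]
    have := hM.Pz
    have h5 : 0 < sb⁻¹ := inv_pos.2 hsb0
    nlinarith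
  have hQv : mk Q.1 v = 0 := by rw [hv, kmk_smul', kmk_add', kmk_smul', hM.Qz, hM.Qx]; ring
  have hQu : mk Q.1 u < 0 := by
    rw [hu, kmk_smul', kmk_add', kmk_smul', hM.Qx]
    have := hM.Qy
    have h5 : 0 < sa⁻¹ := inv_pos.2 hsa0
    nlinarith
  suffices h : 1 ≤ κ by
    have : 0 < sa * sb := mul_pos hsa0 hsb0
    nlinarith
  -- `κ ^ 2 ≥ 1`
  have hk2 : 1 ≤ κ ^ 2 := by
    by_contra hcon
    push Not at hcon
    obtain ⟨O, hO1, hO2, hO3⟩ := exists_orth P x u v κ huu hvv hux hvx hκ.symm hM.Px hPu hcon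
    refine hM.ns ⟨O, hO1, ?_, ?_⟩
    · rw [hu, kmk_smul', kmk_add', kmk_smul', hO1] at hO2
      have h5 : sa⁻¹ ≠ 0 := inv_ne_zero hsa0.ne'
      have := (mul_eq_zero.1 hO2).resolve_left h5
      linarith
    · rw [hv, kmk_smul', kmk_add', kmk_smul', hO1] at hO3
      have h5 : sb⁻¹ ≠ 0 := inv_ne_zero hsb0.ne'
      have := (mul_eq_zero.1 hO3).resolve_left h5
      linarith
  by_contra hcon
  push Not at hcon
  have hk1 : κ ≤ -1 := by nlinarith
  have hw1 : mk (v + κ • u) (v + κ • u) = κ ^ 2 - 1 := by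
    rw [kmk_add, kmk_smul, kmk_add', kmk_add', kmk_smul', kmk_smul', hvv, huu, hvu, ← hκ]; ring
  have hw2 : mk (u + κ • v) (u + κ • v) = κ ^ 2 - 1 := by
    rw [kmk_add, kmk_smul, kmk_add', kmk_add', kmk_smul', kmk_smul', hvv, huu, hvu, ← hκ]; ring
  have hw12 : mk (v + κ • u) (u + κ • v) = κ * (κ ^ 2 - 1) := by
    rw [kmk_add, kmk_smul, kmk_add', kmk_add', kmk_smul', kmk_smul', hvv, huu, hvu, ← hκ]; ring
  have hs1 : (v + κ • u) 3 < 0 := causal_sign P _ (by rw [hw1]; linarith) (by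
    rw [kmk_add', kmk_smul', hPu]; linarith)
  have hs2 : (u + κ • v) 3 < 0 := causal_sign Q _ (by rw [hw2]; linarith) (by
    rw [kmk_add', kmk_smul', hQv]; linarith)
  have h6 := causal_nonneg _ _ (by rw [hw1]; linarith) (by rw [hw2]; linarith)
    (mul_pos_of_neg_of_neg hs1 hs2)
  rw [hw12] at h6
  have h7 : κ ^ 2 - 1 ≤ 0 := by nlinarith
  have h8 : κ = -1 := by nlinarith
  rw [h8] at hs1 hs2
  simp only [Pi.add_apply, Pi.smul_apply, smul_eq_mul] at hs1 hs2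
  linarith

end Pool.Agent.H64.ODG
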